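import Pool.Agent.W554.CR.Final
import Pool.Agent.W554.CR.Sub
import Pool.Agent.W554.CR.Chern
import Pool.Agent.W554.CR.Contact

set_option autoImplicit false

namespace Pool.Agent.Results.MP_6ed372_gt.NoPseudoEinstein

open Pool.Agent.W554.CR

/-- There is a compact connected three dimensional CR submanifold of `ℂ^4` that is strictly
pseudoconvex, whose bundle `T^{1,0}` has torsion first Chern class, and that admits no
pseudo-Einstein contact form. -/
theorem result : ∃ M : Set (Fin 4 → ℂ), IsCompact M ∧ IsConnected M ∧ IsSubmanifold 3 M ∧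
    (∀ p ∈ M, ∃ v ∈ Hol M p, v ≠ 0) ∧ StrictlyPseudoconvex M ∧ TorsionChernClass M ∧
    ¬ ∃ θ : (Fin 4 → ℂ) → (Fin 4 → ℂ) →L[ℝ] ℝ, IsContactForm M θ ∧ IsPseudoEinstein M θ := by
  refine ⟨MM, isCompact_MM, isConnected_MM, isSubmanifold_MM, ?_, strictlyPseudoconvex_MM,
    torsionChernClass_MM, ?_⟩
  · rintro _ ⟨p, hp, rfl⟩
    exact ⟨VV p, VV_mem_Hol hp, VV_ne hp⟩
  · rintro ⟨θ, hθ, hE⟩
    exact no_pseudoEinstein hθ hE

end Pool.Agent.Results.MP_6ed372_gt.NoPseudoEinstein
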